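import Mathlib

set_option autoImplicit false

/-!
# Simultaneous exponential Riesz bases for two sets of the same size

For every finite abelian group `G` and all `E₁, E₂ ⊆ G` with `|E₁| = |E₂|` there is a set `Λ` of
characters which is a Riesz basis of exponentials for both `L²(E₁)` and `L²(E₂)`.
-/

namespace Pool.Agent.Results.MP_b06300_an.SimultaneousBasis

open Matrix

/-- `Λ` is a Riesz basis of exponentials for `E`: `|Λ| = |E|` and the restrictions to `E` of the
characters in `Λ` are linearly independent functions on `E`. -/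
def IsRieszBasis {G : Type*} [AddCommGroup G] (E : Finset G) (Λ : Finset (AddChar G ℂ)) : Prop :=
  Λ.card = E.card ∧
    LinearIndependent ℂ (fun χ : Λ => fun x : E => ((χ : AddChar G ℂ) (x : G) : ℂ))

/-! ### Cauchy-Binet over `ℂ` -/

theorem cb_aux {m : ℕ} {ι : Type*} [Fintype ι] [DecidableEq ι] (P : Matrix (Fin m) ι ℂ)
    (Q : Matrix ι (Fin m) ℂ) :
    (P * Q).det = ∑ a : Fin m → ι, (P.submatrix id a).det * ∏ i, Q (a i) i := by
  rw [det_apply']
  have h1 : ∀ σ : Equiv.Perm (Fin m), ∏ i, (P * Q) (σ i) i =
      ∑ a : Fin m → ι, (∏ i, P (σ i) (a i)) * ∏ i, Q (a i) i := by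
    intro σ
    simp only [Matrix.mul_apply]
    rw [Finset.prod_univ_sum, Fintype.piFinset_univ]
    apply Finset.sum_congr rfl
    intro a _
    rw [Finset.prod_mul_distrib]
  simp only [h1, Finset.mul_sum]
  rw [Finset.sum_comm]
  apply Finset.sum_congr rfl
  intro a _
  rw [det_apply', Finset.sum_mul]
  apply Finset.sum_congr rfl
  intro σ _
  simp only [submatrix_apply, id]
  ring

/-- Cauchy-Binet with ordered tuples. -/
theorem cauchyBinet {m : ℕ} {ι : Type*} [Fintype ι] [DecidableEq ι] (P : Matrix (Fin m) ι ℂ)
    (Q : Matrix ι (Fin m) ℂ) :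
    (m.factorial : ℂ) * (P * Q).det =
      ∑ a : Fin m → ι, (P.submatrix id a).det * (Q.submatrix a id).det := by
  have h1 : ∀ τ : Equiv.Perm (Fin m), (P * Q).det =
      ∑ a : Fin m → ι, (P.submatrix id a).det *
        (((Equiv.Perm.sign τ : ℤ) : ℂ) * ∏ i, Q (a (τ i)) i) := by
    intro τ
    rw [cb_aux, ← Equiv.sum_comp (Equiv.arrowCongr τ.symm (Equiv.refl ι))]
    apply Finset.sum_congr rfl
    intro a _
    have e : (Equiv.arrowCongr τ.symm (Equiv.refl ι)) a = a ∘ τ := by
      ext i
      simp [Equiv.arrowCongr]
    rw [e]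
    have e2 : P.submatrix id (a ∘ τ) = (P.submatrix id a).submatrix id τ := rfl
    rw [e2, Matrix.det_permute']
    simp only [Function.comp_apply]
    ring
  calc (m.factorial : ℂ) * (P * Q).det = ∑ τ : Equiv.Perm (Fin m), (P * Q).det := by
        rw [Finset.sum_const, Finset.card_univ, Fintype.card_perm, Fintype.card_fin, nsmul_eq_mul]
    _ = ∑ τ : Equiv.Perm (Fin m), ∑ a : Fin m → ι, (P.submatrix id a).det *
      (((Equiv.Perm.sign τ : ℤ) : ℂ) * ∏ i, Q (a (τ i)) i) :=
        Finset.sum_congr rfl (fun τ _ => h1 τ)
    _ = _ := by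
        rw [Finset.sum_comm]
        apply Finset.sum_congr rfl
        intro a _
        rw [← Finset.mul_sum, det_apply' (Q.submatrix a id)]
        rfl

/-! ### A nonsingular matrix `φ(x + y)` -/

theorem exists_phi {G : Type*} [AddCommGroup G] [DecidableEq G] (n : ℕ) :
    ∀ (α : Type) [Fintype α] [DecidableEq α], Fintype.card α = n → ∀ e f : α → G,
      Function.Injective e → Function.Injective f →
      ∃ φ : G → ℂ, (Matrix.of fun i j : α => φ (e i + f j)).det ≠ 0 := by
  classical
  induction n using Nat.strong_induction_on with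
  | _ n ih =>
    intro α _ _ hα e f he hf
    rcases Nat.eq_zero_or_pos n with h0 | hpos
    · subst h0
      have : IsEmpty α := Fintype.card_eq_zero_iff.1 hα
      exact ⟨0, by rw [Matrix.det_isEmpty]; exact one_ne_zero⟩
    · have hne : Nonempty α := by
        rw [← Fintype.card_pos_iff, hα]; exact hpos
      obtain ⟨a₀⟩ := hne
      set g := e a₀ + f a₀ with hg
      let p : α → Prop := fun i => ∃ j, e i + f j = g
      let q : α → Prop := fun j => ∃ i, e i + f j = g
      -- the matching
      let τ : {i // p i} ≃ {j // q j} :=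
        { toFun := fun i => ⟨i.2.choose, i, i.2.choose_spec⟩
          invFun := fun j => ⟨j.2.choose, j, j.2.choose_spec⟩
          left_inv := by
            intro i
            apply Subtype.ext
            apply he
            have h1 := i.2.choose_spec
            have h2 : q i.2.choose := ⟨i, h1⟩
            have h3 := h2.choose_spec
            exact add_right_cancel (h3.trans h1.symm)
          right_inv := by
            intro j
            apply Subtype.ext
            apply hf
            have h1 := j.2.choose_spec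
            have h2 : p j.2.choose := ⟨j, h1⟩
            have h3 := h2.choose_spec
            exact add_left_cancel (h3.trans h1.symm) }
      have hτ : ∀ i : {i // p i}, e i + f (τ i) = g := fun i => i.2.choose_spec
      have hcard : Fintype.card {i // ¬ p i} = Fintype.card {j // ¬ q j} := by
        rw [Fintype.card_subtype_compl, Fintype.card_subtype_compl, Fintype.card_congr τ]
      let κ : {i // ¬ p i} ≃ {j // ¬ q j} := Fintype.equivOfCardEq hcard
      have hlt : Fintype.card {i // ¬ p i} < n := by
        rw [← hα]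
        exact Fintype.card_subtype_lt (x := a₀) (not_not.2 ⟨a₀, rfl⟩)
      obtain ⟨φ', hφ'⟩ := ih _ hlt {i // ¬ p i} rfl (fun i => e i) (fun i => f (κ i))
        (fun i j h => Subtype.ext (he h))
        (fun i j h => κ.injective (Subtype.ext (hf h)))
      -- the blocks
      let ρ₁ : {i // p i} ⊕ {i // ¬ p i} ≃ α := Equiv.sumCompl p
      let ρ₂ : {i // p i} ⊕ {i // ¬ p i} ≃ α := (Equiv.sumCongr τ κ).trans (Equiv.sumCompl q)
      let A₀ : Matrix {i // p i} {i // p i} ℂ :=
        Matrix.of fun i j => if i = j then 0 else φ' (e i + f (τ j))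
      let B : Matrix {i // p i} {i // ¬ p i} ℂ := Matrix.of fun i j => φ' (e i + f (κ j))
      let C : Matrix {i // ¬ p i} {i // p i} ℂ := Matrix.of fun i j => φ' (e i + f (τ j))
      let D : Matrix {i // ¬ p i} {i // ¬ p i} ℂ := Matrix.of fun i j => φ' (e i + f (κ j))
      have hD : D.det ≠ 0 := hφ'
      have hDu : IsUnit D.det := isUnit_iff_ne_zero.2 hD
      let _ : Invertible D := Matrix.invertibleOfIsUnitDet D hDu
      let N : Matrix {i // p i} {i // p i} ℂ := -(A₀ - B * ⅟D * C)
      obtain ⟨t, ht⟩ : ∃ t : ℂ, N.charpoly.eval t ≠ 0 := by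
        by_contra hcon
        push Not at hcon
        have h1 : N.charpoly = 0 := Polynomial.funext (fun t => by rw [hcon t]; simp)
        exact (Matrix.charpoly_monic N).ne_zero h1
      refine ⟨Function.update φ' g t, ?_⟩
      set M : Matrix α α ℂ := Matrix.of fun i j : α => (Function.update φ' g t) (e i + f j) with hM
      have hblock : M.submatrix ρ₁ ρ₂ = Matrix.fromBlocks (t • (1 : Matrix _ _ ℂ) + A₀) B C D := by
        ext i j
        rcases i with i | i <;> rcases j with j | j
        · change (Function.update φ' g t) (e i + f (τ j)) = t * (1 : Matrix _ _ ℂ) i j + A₀ i j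
          by_cases hij : i = j
          · subst hij
            rw [hτ i, Function.update_self, Matrix.one_apply_eq]
            simp [A₀]
          · have hne : e i + f (τ j) ≠ g := by
              intro h
              apply hij
              apply Subtype.ext
              apply he
              exact add_right_cancel (h.trans (hτ j).symm)
            rw [Function.update_of_ne hne, Matrix.one_apply_ne hij]
            simp [A₀, hij]
        · change (Function.update φ' g t) (e i + f (κ j)) = φ' (e i + f (κ j))
          have hne : e i + f (κ j) ≠ g := fun h => (κ j).2 ⟨i, h⟩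
          rw [Function.update_of_ne hne]
        · change (Function.update φ' g t) (e i + f (τ j)) = φ' (e i + f (τ j))
          have hne : e i + f (τ j) ≠ g := fun h => i.2 ⟨_, h⟩
          rw [Function.update_of_ne hne]
        · change (Function.update φ' g t) (e i + f (κ j)) = φ' (e i + f (κ j))
          have hne : e i + f (κ j) ≠ g := fun h => i.2 ⟨_, h⟩
          rw [Function.update_of_ne hne]
      have hdet : (M.submatrix ρ₁ ρ₂).det ≠ 0 := by
        rw [hblock, Matrix.det_fromBlocks₂₂]
        refine mul_ne_zero hD ?_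
        have h1 : t • (1 : Matrix {i // p i} {i // p i} ℂ) + A₀ - B * ⅟D * C =
            Matrix.scalar {i // p i} t - N := by
          simp only [N]
          rw [Matrix.scalar_apply, ← Matrix.smul_one_eq_diagonal]
          abel
        rw [h1, ← Matrix.eval_charpoly]
        exact ht
      have h2 : IsUnit (M.submatrix ρ₁ ρ₂) := by
        rw [Matrix.isUnit_iff_isUnit_det]
        exact isUnit_iff_ne_zero.2 hdet
      rw [Matrix.isUnit_submatrix_equiv, Matrix.isUnit_iff_isUnit_det] at h2
      exact h2.ne_zero

theorem basis_of_det {G : Type*} [AddCommGroup G] [DecidableEq (AddChar G ℂ)] {m : ℕ} (E : Finset G)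
    (hE : E.card = m) (e : Fin m ≃ E) (a : Fin m → AddChar G ℂ)
    (h : (Matrix.of fun k j : Fin m => (a k (e j : G) : ℂ)).det ≠ 0) :
    IsRieszBasis E (Finset.univ.image a) := by
  have hrows : LinearIndependent ℂ (fun k : Fin m => fun j : Fin m => (a k (e j : G) : ℂ)) := by
    have := (Matrix.linearIndependent_rows_iff_isUnit
      (A := (Matrix.of fun k j : Fin m => (a k (e j : G) : ℂ)))).2
      ((Matrix.isUnit_iff_isUnit_det _).2 (isUnit_iff_ne_zero.2 h))
    exact this
  have hinj : Function.Injective a := by
    intro k l hkl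
    apply hrows.injective
    funext j
    simp only [hkl]
  have hw : LinearIndependent ℂ (fun k : Fin m => fun x : E => (a k (x : G) : ℂ)) := by
    let L : (E → ℂ) →ₗ[ℂ] (Fin m → ℂ) := LinearMap.funLeft ℂ ℂ e
    exact LinearIndependent.of_comp L hrows
  refine ⟨?_, ?_⟩
  · rw [Finset.card_image_of_injective _ hinj, Finset.card_univ, Fintype.card_fin, hE]
  · let σ : Fin m ≃ (Finset.univ.image a : Finset (AddChar G ℂ)) :=
      Equiv.ofBijective (fun k => ⟨a k, Finset.mem_image_of_mem a (Finset.mem_univ k)⟩)
        ⟨fun k l h => hinj (by simpa using h), fun χ => by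
          obtain ⟨k, _, hk⟩ := Finset.mem_image.1 χ.2
          exact ⟨k, Subtype.ext hk⟩⟩
    rw [← linearIndependent_equiv σ]
    exact hw

/-- **Simultaneous exponential Riesz bases.** For every finite abelian group `G` and all
`E₁, E₂ ⊆ G` with `|E₁| = |E₂|` there is a set of characters which is a Riesz basis of exponentials
for `E₁` and for `E₂`. -/
theorem result (G : Type*) [AddCommGroup G] [Finite G] (E₁ E₂ : Finset G)
    (h : E₁.card = E₂.card) :
    ∃ Λ : Finset (AddChar G ℂ), IsRieszBasis E₁ Λ ∧ IsRieszBasis E₂ Λ := by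
  classical
  let _ := Fintype.ofFinite G
  set m := E₁.card with hm
  let e : Fin m ≃ E₁ := E₁.equivFin.symm
  let f : Fin m ≃ E₂ := (finCongr h).trans E₂.equivFin.symm
  obtain ⟨φ, hφ⟩ := exists_phi m (Fin m) (Fintype.card_fin m) (fun i => (e i : G))
    (fun i => (f i : G)) (fun i j hij => e.injective (Subtype.ext hij))
    (fun i j hij => f.injective (Subtype.ext hij))
  -- Fourier expansion of `φ`
  let c : AddChar G ℂ → ℂ := fun χ => (AddChar.complexBasis G).repr φ χ
  have hc : ∀ z, φ z = ∑ χ : AddChar G ℂ, c χ * χ z := by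
    intro z
    have h1 := congrFun ((AddChar.complexBasis G).sum_repr φ) z
    rw [← h1, Finset.sum_apply]
    refine Finset.sum_congr rfl fun χ _ => ?_
    rw [Pi.smul_apply, AddChar.complexBasis_apply, smul_eq_mul]
  let P : Matrix (Fin m) (AddChar G ℂ) ℂ := Matrix.of fun i χ => (χ (e i : G) : ℂ)
  let Q : Matrix (AddChar G ℂ) (Fin m) ℂ := Matrix.of fun χ j => c χ * χ (f j : G)
  have hPQ : (Matrix.of fun i j : Fin m => φ ((e i : G) + (f j : G))) = P * Q := by
    ext i j
    rw [Matrix.mul_apply, Matrix.of_apply, hc]
    refine Finset.sum_congr rfl fun χ _ => ?_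
    simp only [P, Q, Matrix.of_apply]
    rw [AddChar.map_add_eq_mul]
    ring
  rw [hPQ] at hφ
  have h1 : ∑ a : Fin m → AddChar G ℂ, (P.submatrix id a).det * (Q.submatrix a id).det ≠ 0 := by
    rw [← cauchyBinet]
    exact mul_ne_zero (by exact_mod_cast m.factorial_ne_zero) hφ
  obtain ⟨a, _, ha⟩ := Finset.exists_ne_zero_of_sum_ne_zero h1
  have haP := left_ne_zero_of_mul ha
  have haQ := right_ne_zero_of_mul ha
  refine ⟨Finset.univ.image a, ?_, ?_⟩
  · refine basis_of_det E₁ rfl e a ?_
    rw [← Matrix.det_transpose] at haP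
    exact haP
  · refine basis_of_det E₂ h.symm f a ?_
    have h2 : Q.submatrix a id = Matrix.diagonal (fun k => c (a k)) *
        (Matrix.of fun k j : Fin m => (a k (f j : G) : ℂ)) := by
      ext k j
      rw [Matrix.diagonal_mul]
      rfl
    rw [h2, Matrix.det_mul] at haQ
    exact right_ne_zero_of_mul haQ

end Pool.Agent.Results.MP_b06300_an.SimultaneousBasis
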